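import Pool.Agent.H93.CUBE.LStmts

/-! Cube project, block LIMIT: module CAN (cancellation of `Z`). -/

set_option autoImplicit false

open Polynomial Pool.CM

namespace Pool.H93.Cube

/-- a fixed element is integral at almost all places -/
theorem CAN.ev_mem {X : Idx} {E : Type} [Field E] {A : PF X E} (hA : A.Ax) (x : E) :
    X.Ev fun i => x ∈ A.O i := by
  by_cases hx : x = 0
  · subst hx
    exact Idx.Ev.of_forall fun i => (A.O i).zero_mem
  · exact (hA.pf2 x hx).mono fun i hi => hi.2.1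

theorem CAN_thm : CANStmt := by
  intro X E _ A hA m _ _ G u _ _ d
  classical
  obtain ⟨a0, ha0, hZ'⟩ := exists_bound_fin (fun x : m × u => d.Z' x.1 x.2)
  obtain ⟨z0, hz0, hZ⟩ := exists_bound_fin (fun x : m × u => d.Z x.1 x.2)
  refine ⟨(1 - a0).toNat, ?_⟩
  have hev : X.Ev fun i => ∀ x : m × u, ∀ j ∈ Finset.Icc a0 (0 - z0),
      (d.Z' x.1 x.2).coeff j ∈ A.O i :=
    Idx.Ev.all fun x => Idx.Ev.allFinset _ fun j _ => CAN.ev_mem hA _
  refine hev.mono fun i hi M u' Y hY a b => ?_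
  have hW : ∀ c : m, ∀ k < z0, ((d.Z * cM Y) c b).coeff k = 0 := by
    intro c k hk
    rw [Matrix.mul_apply, HahnSeries.coeff_sum]
    refine Finset.sum_eq_zero fun e _ => ?_
    have h0 : cM Y e b = HahnSeries.C (Y e b) := rfl
    rw [h0, mul_comm, HahnSeries.C_mul_eq_smul, HahnSeries.coeff_smul,
      hZ (c, e) k hk, smul_zero]
  have hid : d.Z'.transpose * (d.Z * cM Y) = cM Y := by
    rw [← Matrix.mul_assoc, d.ZZ, Matrix.one_mul]
  have h1 : Y a b = ((d.Z'.transpose * (d.Z * cM Y)) a b).coeff 0 := by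
    have h0 : cM Y a b = HahnSeries.C (Y a b) := rfl
    rw [hid, h0, HahnSeries.C_apply, HahnSeries.coeff_single_same]
  rw [h1, Matrix.mul_apply, HahnSeries.coeff_sum]
  refine AddSubgroup.sum_mem _ fun c _ => ?_
  rw [Matrix.transpose_apply, coeff_mul_Icc (fun k hk => hZ' (c, a) k hk) (hW c)]
  refine AddSubgroup.sum_mem _ fun j hj => ?_
  refine pI_mul_left (hi (c, a) j hj) (hY c b _ ?_)
  rw [Finset.mem_Icc] at hj
  have : ((1 - a0).toNat : ℤ) = 1 - a0 := Int.toNat_of_nonneg (by omega)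
  omega

end Pool.H93.Cube
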