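import Pool.Agent.H93.CUBE.LStmts
import Pool.Agent.H10.CM.All

/-! Cube project, block LIMIT: module EXF (expansion at zero and Frobenius). -/

set_option autoImplicit false

open Polynomial Pool.CM

namespace Pool.H93.Cube

theorem EXF_thm : EXFStmt := by
  intro X E _ A i x
  ext k
  rw [phiL_coeff]
  split_ifs with h
  · exact ((Pool.CM.All.xph X E A i x k).1 h)
  · exact ((Pool.CM.All.xph X E A i x k).2 h)

end Pool.H93.Cube
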