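import Pool.Agent.H38.CUBE.JJStmts2
import Pool.Agent.H38.CUBE.JJAct

/-!
# MP_47888e_al, block CONT/JJ, part 2, module SEC: values of the rational functions `RJ`
-/

set_option autoImplicit false

open Polynomial

namespace Pool.CUBE

open Pool.CM Pool.H93.Cube

namespace SEC34

variable {E : Type} [Field E]

/-- shift of the second index in `act` -/
theorem act_shift (x : B3 E) (F G : ℤ → ℤ → ℤ → E) (l s t c : ℤ)
    (h : ∀ l s t : ℤ, F l s t = G l (s + c) t) :
    act x F l s t = act x G l (s + c) t := by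
  unfold act
  rw [Polynomial.sum_def, Polynomial.sum_def]
  refine Finset.sum_congr rfl fun k _ => ?_
  rw [Polynomial.sum_def, Polynomial.sum_def]
  refine Finset.sum_congr rfl fun u _ => ?_
  rw [Polynomial.sum_def, Polynomial.sum_def]
  refine Finset.sum_congr rfl fun w _ => ?_
  rw [h]
  congr 2
  ring

end SEC34

theorem sec_thm (hRC : RCStmt) (hRSC : RSCStmt) : Corner.SECStmt := by
  intro n E _ _ K φ p hp g j e N' l t
  obtain ⟨r1, r2, r3, _⟩ := hRC E
  obtain ⟨_, _, _, s4, _⟩ := hRSC E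
  have hp' : (0 : ℤ) < p := by exact_mod_cast hp
  -- `Rc j N'` as an additive map
  let f : RatFunc E →+ E :=
    { toFun := fun r => Rc j N' r
      map_zero' := by
        have h := r1 j N' 0 0
        rw [add_zero] at h
        simpa using h
      map_add' := fun r s => r1 j N' r s }
  have hf0 : ∀ r, f r = Rc j N' r := fun _ => rfl
  have hf : ∀ (e : E) v, f (e • v) = e • f v := by
    intro e v
    rw [hf0, hf0, RatFunc.smul_eq_C_mul, r2, smul_eq_mul]
  have key : ∀ b (l s t : ℤ), f (K.RF φ p b l s t) =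
      phF φ p (K.RI j b) l (s + (-((p : ℤ) * N'))) t := by
    intro b l s t
    unfold phF Corner.RF Corner.RI
    by_cases h1 : (p : ℤ) ∣ l
    · by_cases h2 : (p : ℤ) ∣ s
      · by_cases h3 : (p : ℤ) ∣ t
        · obtain ⟨l', rfl⟩ := h1
          obtain ⟨s', rfl⟩ := h2
          obtain ⟨t', rfl⟩ := h3
          have e1 : (p : ℤ) * s' + -((p : ℤ) * N') = (p : ℤ) * (s' - N') := by ring
          rw [e1]
          rw [Int.mul_ediv_cancel_left _ hp'.ne', Int.mul_ediv_cancel_left _ hp'.ne',
            Int.mul_ediv_cancel_left _ hp'.ne', Int.mul_ediv_cancel_left _ hp'.ne']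
          rw [if_pos (⟨dvd_mul_right _ _, dvd_mul_right _ _, dvd_mul_right _ _⟩ :
            (p : ℤ) ∣ p * l' ∧ (p : ℤ) ∣ p * (s' - N') ∧ (p : ℤ) ∣ p * t')]
          by_cases h4 : K.D ∣ b.degree + (n + 1) ∧ 0 ≤ l' ∧ 0 ≤ t'
          · rw [if_pos h4, if_pos]
            · rw [hf0, r3, s4]
              congr 2
              ring
            · exact ⟨dvd_mul_right _ _, dvd_mul_right _ _, dvd_mul_right _ _, h4.1,
                mul_nonneg hp'.le h4.2.1, mul_nonneg hp'.le h4.2.2⟩
          · rw [if_neg h4, map_zero, if_neg, map_zero]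
            intro h5
            exact h4 ⟨h5.2.2.2.1, nonneg_of_mul_nonneg_right h5.2.2.2.2.1 hp',
              nonneg_of_mul_nonneg_right h5.2.2.2.2.2 hp'⟩
        · rw [if_neg (fun h => h3 h.2.2.1), if_neg (fun h => h3 h.2.2), map_zero]
      · rw [if_neg (fun h => h2 h.2.1), map_zero, if_neg]
        intro h
        exact h2 ((dvd_add_left (Dvd.dvd.neg_right (dvd_mul_right _ _))).1 h.2.1)
    · rw [if_neg (fun h => h1 h.1), if_neg (fun h => h1 h.1), map_zero]
  unfold Corner.RJ
  rw [← hf0, map_sum]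
  refine Finset.sum_congr rfl fun b _ => ?_
  rw [map_act f hf]
  rw [SEC34.act_shift (MvPolynomial.coeff b g) _ (phF φ p (K.RI j b)) l (-(e : ℤ) - 1) t
    (-((p : ℤ) * N')) (key b)]
  congr 1
  ring

end Pool.CUBE
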