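import Pool.Agent.H41.CUBE.TStmts

/-! Cube project, block TAME: module CHI (the coordinate of `e` vanishes on the levels `≤ n`). -/

set_option autoImplicit false

open Finset MvPolynomial Pool.CM

namespace Pool.CUBE

theorem CHI_proof : CHIStmt := by
  classical
  intro F _ n D hD P N co b l hco hbn hbs hN he c hc
  by_contra hx
  -- `D` divides the weight of `c`
  have hDc : D ∣ c.degree + (n + 1) := by
    by_contra h
    exact hx (by rw [hco.nd c h]; rfl)
  have hwt : ∀ y : N, D ∣ y.1.degree + (n + 1) := by
    intro y
    have h1 := hco.lb (some y)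
    rw [hbs y] at h1
    have h2 := h1 y.1 (by rw [coeff_monomial, if_pos rfl]; exact one_ne_zero)
    exact ⟨_, h2⟩
  set x := co (monomial c 1) none with hxdef
  set w0 : Poly n F := monomial c 1 - ∑ y : N, co (monomial c 1) (some y) • monomial y.1 1 with hw0
  have hw0c : ∀ a, coeff a w0 ≠ 0 → D ∣ a.degree + (n + 1) ∧ a.degree + (n + 1) ≤ D * n := by
    intro a ha
    by_cases hac : c = a
    · subst hac
      exact ⟨hDc, hc⟩
    · by_contra hcon
      apply ha
      rw [hw0, coeff_sub, coeff_monomial, if_neg hac, coeff_sum, zero_sub, neg_eq_zero]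
      refine Finset.sum_eq_zero fun y _ => ?_
      rw [coeff_smul, coeff_monomial]
      split_ifs with hy
      · exfalso
        apply hcon
        rw [← hy]
        exact ⟨hwt y, hN y⟩
      · rw [smul_zero]
  have hspan := hco.span (monomial c 1) (by
    intro a ha
    rw [coeff_monomial] at ha
    split_ifs at ha with h
    · rw [← h]; exact hDc
    · exact absurd rfl ha)
  rw [Fintype.sum_option, hbn] at hspan
  have h1 : (monomial c 1 : Poly n F) - (co (monomial c 1) none • eP D n P +
      ∑ i : N, co (monomial c 1) (some i) • b (some i)) = w0 - x • eP D n P := by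
    rw [hw0]
    have : ∑ i : N, co (monomial c 1) (some i) • b (some i) =
        ∑ y : N, co (monomial c 1) (some y) • (monomial y.1 1 : Poly n F) :=
      Finset.sum_congr rfl fun y _ => by rw [hbs y]
    rw [this]
    abel
  rw [h1] at hspan
  refine he (x⁻¹ • w0) ?_ ?_ ?_
  · intro a ha
    rw [coeff_smul] at ha
    exact (hw0c a (right_ne_zero_of_mul ha)).1
  · intro a ha
    rw [coeff_smul] at ha
    exact (hw0c a (right_ne_zero_of_mul ha)).2
  · have h2 := (Rel P).smul_mem (-x⁻¹) hspan
    have h3 : (-x⁻¹) • (w0 - x • eP D n P) = eP D n P - x⁻¹ • w0 := by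
      rw [neg_smul, smul_sub, smul_smul, inv_mul_cancel₀ hx, one_smul]
      abel
    rwa [h3] at h2

end Pool.CUBE
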