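import Pool.Agent.H38.CUBE.JJStmts
import Pool.Agent.H10.CM.All

/-! Cube project, block JJ: module EXD (expansion and derivations). -/

set_option autoImplicit false

open Polynomial

namespace Pool.CUBE

open Pool.CM Pool.H93.Cube

namespace J_EXD

/-- an index set of places -/
def X0 : Idx where
  I := {p : ℕ // p.Prime}
  p := fun q => q.1
  hp := fun q => q.2
  unb := fun B => by
    obtain ⟨p, h1, h2⟩ := Nat.exists_infinite_primes (B + 1)
    exact ⟨⟨p, h2⟩, h1⟩

/-- a structure with a given derivation -/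
def A0 (F : Type) [Field F] (d : Derivation ℤ F F) : PF X0 F where
  O := fun _ => ⊤
  phi := fun _ => RingHom.id F
  pol := fun _ _ => ⊤
  den := fun _ _ => Set.univ
  J := Unit
  D := fun _ => d

theorem ex_none (F : Type) [Field F] (x : RatFunc F) :
    ex F (fd (nabP F) x) = Pool.H93.Cube.nab (ex F x) := by
  ext k
  exact (Pool.CM.All.xde X0 F (A0 F 0) x k).1

theorem ex_some (F : Type) [Field F] (d : Derivation ℤ F F) (x : RatFunc F) (k : ℤ) :
    (ex F (fd (dCoeff d) x)).coeff k = d ((ex F x).coeff k) :=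
  (Pool.CM.All.xde X0 F (A0 F d) x k).2 ()

end J_EXD

theorem exd_thm : Corner.EXDStmt := by
  intro E _ _ x
  constructor
  · have h : ex3 E (Corner.dLam E x) = cmapR ((cmapR (ex E)).comp (ex (RatFunc E)))
        (ex (RatFunc (RatFunc E)) (fd (nabP (RatFunc (RatFunc E))) x)) := rfl
    rw [h, J_EXD.ex_none, ← nab_cmapR]
    rfl
  · ext1
    funext k
    have h : (ex3 E (Corner.dSig E x)).coeff k = cmapR (ex E) (ex (RatFunc E)
        ((ex (RatFunc (RatFunc E)) (fd (dCoeff (fd (nabP (RatFunc E)))) x)).coeff k)) := rfl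
    have h2 : (nabS E (ex3 E x)).coeff k = Pool.H93.Cube.nab (cmapR (ex E) (ex (RatFunc E)
        ((ex (RatFunc (RatFunc E)) x).coeff k))) := rfl
    rw [h, h2, J_EXD.ex_some, J_EXD.ex_none, ← nab_cmapR]

end Pool.CUBE
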