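import Pool.Agent.H38.CUBE.JJStmts

/-! Cube project, block JJ: module JJPOS (positivity on numerators of level one). -/

set_option autoImplicit false

open Polynomial

namespace Pool.CUBE

open Pool.CM Pool.H93.Cube

theorem J_JJPOS.ofPS_neg {R : Type} [CommRing R] (f : PowerSeries R) (k : ℤ) (hk : k < 0) :
    (HahnSeries.ofPowerSeries ℤ R f).coeff k = 0 := by
  rw [HahnSeries.ofPowerSeries_apply]
  refine HahnSeries.embDomain_of_notMem_range ?_
  rintro ⟨n, hn⟩
  have : (n : ℤ) = k := hn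
  omega

theorem J_JJPOS.ofPS_zero {R : Type} [CommRing R] (f : PowerSeries R) :
    (HahnSeries.ofPowerSeries ℤ R f).coeff 0 = PowerSeries.coeff 0 f := by
  have := HahnSeries.ofPowerSeries_apply_coeff (Γ := ℤ) f 0
  simpa using this

theorem jjpos_thm : Corner.JJPOSStmt := by
  intro n E _ _ K j a ha
  classical
  have hdvd : K.D ∣ a.degree + (n + 1) := ⟨1, by rw [ha, mul_one]⟩
  have hlv : K.lv a = 1 := by
    unfold Corner.lv
    rw [ha]
    exact Nat.div_self K.hD
  unfold Corner.del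
  rw [if_pos hdvd]
  constructor
  · intro l hl
    exact J_JJPOS.ofPS_neg _ _ hl
  · intro s hs
    rw [J_JJPOS.ofPS_zero, PowerSeries.coeff_mk, hlv]
    have h0 : (1 : ℤ) - ((1 + 0 : ℕ) : ℤ) = 0 := by norm_num
    rw [h0]
    have h1 : (HahnSeries.single (0 : ℤ) (1 : LaurentSeries E)) = 1 := rfl
    rw [h1, one_mul]
    exact J_JJPOS.ofPS_neg _ _ hs

end Pool.CUBE
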